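import Pool.Agent.H.MP_8a52c3_lc.Circ

/-!
# The depth of a circuit, counting AND and OR gates only: the definition used in the statements
-/

set_option autoImplicit false

namespace Pool.Agent.H.MP_8a52c3_lc.Circuit

variable {V : Type} {s : ℕ}

/-- the largest number of AND and OR gates on a path from an input to gate `i` -/
def binAt (C : Circuit V s) (i : Fin s) : ℕ :=
  match C.gate i with
  | .var _ => 0
  | .const _ => 0
  | .and a b => max (C.binAt ⟨a.val, a.isLt.trans i.isLt⟩)
      (C.binAt ⟨b.val, b.isLt.trans i.isLt⟩) + 1
  | .or a b => max (C.binAt ⟨a.val, a.isLt.trans i.isLt⟩)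
      (C.binAt ⟨b.val, b.isLt.trans i.isLt⟩) + 1
  | .other _ a _ => Finset.univ.sup fun r => C.binAt ⟨(a r).val, (a r).isLt.trans i.isLt⟩
termination_by i.val
decreasing_by
  all_goals first | exact a.isLt | exact b.isLt | exact (a r).isLt

/-- the largest number of AND and OR gates on a path from an input to the output -/
def binDepth (C : Circuit V s) : ℕ := C.binAt C.out

end Pool.Agent.H.MP_8a52c3_lc.Circuit
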