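import Pool.Agent.H.MP_027d00_lc.gen.BinDepth
import Pool.Agent.H.MP_8a52c3_lc.Others
import Pool.Agent.H.MP_027d00_lc.Tradeoff

/-!
# The chain theorem for circuits of small depth
-/

set_option autoImplicit false

open Finset

namespace Pool.Agent.H.MP_8a52c3_lc

open Pool.Agent.H.MP_027d00_lc (MonoDepth orList orList_depth E ind path cut hyb hyb_mono
  hyb_update hyb_le hyb_true hyb_false_not hybrid_point OrConn ind_le_one ind_nonneg base_hard)

namespace Circuit

variable {V : Type} {s : ℕ}

/-- remove the gates of large depth -/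
def prune (C : Circuit V s) (D : ℕ) : Circuit V s :=
  ⟨fun i => if C.binAt i ≤ D then C.gate i else .const false, C.out⟩

theorem prune_facts (C : Circuit V s) (D : ℕ) (i : Fin s) (hi : C.binAt i ≤ D) :
    (∀ x, (C.prune D).val x i = C.val x i) ∧ (C.prune D).lev i = C.lev i ∧
      (C.prune D).binAt i = C.binAt i := by
  obtain ⟨n, hn⟩ : ∃ n, n = i.val := ⟨_, rfl⟩
  induction n using Nat.strong_induction_on generalizing i with
  | _ n ih =>
    have hg' : (C.prune D).gate i = C.gate i := if_pos hi
    rw [binAt] at hi
    cases hg : C.gate i with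
    | var v =>
      rw [hg] at hg'
      refine ⟨fun x => by rw [val, val, hg', hg], by rw [lev, lev, hg', hg],
        by rw [binAt, binAt, hg', hg]⟩
    | const v =>
      rw [hg] at hg'
      refine ⟨fun x => by rw [val, val, hg', hg], by rw [lev, lev, hg', hg],
        by rw [binAt, binAt, hg', hg]⟩
    | and a b =>
      rw [hg] at hg' hi
      simp only at hi
      obtain ⟨a1, a2, a3⟩ := ih a.val (by rw [hn]; exact a.isLt) ⟨a.val, a.isLt.trans i.isLt⟩
        (by omega) rfl
      obtain ⟨b1, b2, b3⟩ := ih b.val (by rw [hn]; exact b.isLt) ⟨b.val, b.isLt.trans i.isLt⟩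
        (by omega) rfl
      refine ⟨fun x => ?_, ?_, ?_⟩
      · rw [val, hg', val, hg]; simp only; rw [a1, b1]
      · rw [lev, hg', lev, hg]; simp only; rw [a2, b2]
      · rw [binAt, hg', binAt, hg]; simp only; rw [a3, b3]
    | or a b =>
      rw [hg] at hg' hi
      simp only at hi
      obtain ⟨a1, a2, a3⟩ := ih a.val (by rw [hn]; exact a.isLt) ⟨a.val, a.isLt.trans i.isLt⟩
        (by omega) rfl
      obtain ⟨b1, b2, b3⟩ := ih b.val (by rw [hn]; exact b.isLt) ⟨b.val, b.isLt.trans i.isLt⟩
        (by omega) rfl
      refine ⟨fun x => ?_, ?_, ?_⟩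
      · rw [val, hg', val, hg]; simp only; rw [a1, b1]
      · rw [lev, hg', lev, hg]; simp only; rw [a2, b2]
      · rw [binAt, hg', binAt, hg]; simp only; rw [a3, b3]
    | other m a g =>
      rw [hg] at hg' hi
      simp only at hi
      have h1 : ∀ r : Fin m, C.binAt ⟨(a r).val, (a r).isLt.trans i.isLt⟩ ≤ D := fun r =>
        (Finset.le_sup (f := fun r => C.binAt ⟨(a r).val, (a r).isLt.trans i.isLt⟩)
          (Finset.mem_univ r)).trans hi
      have h2 := fun r : Fin m => ih (a r).val (by rw [hn]; exact (a r).isLt)
        ⟨(a r).val, (a r).isLt.trans i.isLt⟩ (h1 r) rfl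
      refine ⟨fun x => ?_, ?_, ?_⟩
      · rw [val, hg', val, hg]; simp only
        congr 1
        funext r
        exact (h2 r).1 x
      · rw [lev, hg', lev, hg]; simp only
        congr 2
        funext r
        exact (h2 r).2.1
      · rw [binAt, hg', binAt, hg]; simp only
        congr 1
        funext r
        exact (h2 r).2.2

theorem prune_binAt_le (C : Circuit V s) (D : ℕ) (i : Fin s) : (C.prune D).binAt i ≤ D := by
  by_cases hi : C.binAt i ≤ D
  · rw [(C.prune_facts D i hi).2.2]; exact hi
  · have hg' : (C.prune D).gate i = .const false := if_neg hi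
    rw [binAt, hg']
    exact Nat.zero_le D

theorem prune_eval (C : Circuit V s) {D : ℕ} (hD : C.binDepth ≤ D) (x : V → Bool) :
    (C.prune D).eval x = C.eval x := (C.prune_facts D C.out hD).1 x

theorem prune_otherDepth (C : Circuit V s) {D : ℕ} (hD : C.binDepth ≤ D) :
    (C.prune D).otherDepth = C.otherDepth := (C.prune_facts D C.out hD).2.1

theorem prune_fan_le (C : Circuit V s) (D : ℕ) (i : Fin s) :
    ((C.prune D).gate i).fan ≤ (C.gate i).fan := by
  by_cases hi : C.binAt i ≤ D
  · have hg' : (C.prune D).gate i = C.gate i := if_pos hi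
    rw [hg']
  · have hg' : (C.prune D).gate i = .const false := if_neg hi
    rw [hg']
    exact Nat.zero_le _

theorem prune_otherFan (C : Circuit V s) (D : ℕ) : (C.prune D).otherFan ≤ C.otherFan :=
  Finset.sum_le_sum (fun i _ => C.prune_fan_le D i)

theorem prune_numOther (C : Circuit V s) (D : ℕ) : (C.prune D).numOther ≤ C.numOther := by
  apply Finset.card_le_card
  intro i hi
  rw [Finset.mem_filter] at hi ⊢
  refine ⟨Finset.mem_univ _, ?_⟩
  by_cases h : C.binAt i ≤ D
  · have hg' : (C.prune D).gate i = C.gate i := if_pos h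
    rw [hg'] at hi
    exact hi.2
  · have hg' : (C.prune D).gate i = .const false := if_neg h
    rw [hg'] at hi
    exact absurd hi.2 (by simp [Gate.isOther])

theorem valFix_depth (C : Circuit V s) (c : Fin s → Bool) (k : Fin s) :
    MonoDepth (C.binAt k) (fun x => C.valFix c x k) := by
  obtain ⟨n, hn⟩ : ∃ n, n = k.val := ⟨_, rfl⟩
  induction n using Nat.strong_induction_on generalizing k with
  | _ n ih =>
    cases hg : C.gate k with
    | var v =>
      have e : (fun x => C.valFix c x k) = fun x => x v := by funext x; rw [valFix, hg]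
      rw [e]; exact .var _ v
    | const b =>
      have e : (fun x => C.valFix c x k) = fun _ => b := by funext x; rw [valFix, hg]
      rw [e]; exact .const _ b
    | other m a g =>
      have e : (fun x => C.valFix c x k) = fun _ => c k := by funext x; rw [valFix, hg]
      rw [e]; exact .const _ _
    | and a b =>
      have h1 := ih a.val (by rw [hn]; exact a.isLt) ⟨a.val, a.isLt.trans k.isLt⟩ rfl
      have h2 := ih b.val (by rw [hn]; exact b.isLt) ⟨b.val, b.isLt.trans k.isLt⟩ rfl
      have e : (fun x => C.valFix c x k) = fun x =>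
          C.valFix c x ⟨a.val, a.isLt.trans k.isLt⟩ &&
            C.valFix c x ⟨b.val, b.isLt.trans k.isLt⟩ := by
        funext x; conv_lhs => rw [valFix, hg]
      rw [e, binAt, hg]
      exact (h1.mono (le_max_left _ _)).and (h2.mono (le_max_right _ _))
    | or a b =>
      have h1 := ih a.val (by rw [hn]; exact a.isLt) ⟨a.val, a.isLt.trans k.isLt⟩ rfl
      have h2 := ih b.val (by rw [hn]; exact b.isLt) ⟨b.val, b.isLt.trans k.isLt⟩ rfl
      have e : (fun x => C.valFix c x k) = fun x =>
          C.valFix c x ⟨a.val, a.isLt.trans k.isLt⟩ ||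
            C.valFix c x ⟨b.val, b.isLt.trans k.isLt⟩ := by
        funext x; conv_lhs => rw [valFix, hg]
      rw [e, binAt, hg]
      exact (h1.mono (le_max_left _ _)).or (h2.mono (le_max_right _ _))

theorem inpFix_depth (C : Circuit V s) {D : ℕ} (hD : ∀ i, C.binAt i ≤ D) (c : Fin s → Bool)
    (i : Fin s) (r : ℕ) : MonoDepth D (fun x => C.inpFix c x i r) := by
  by_cases hr : r < (C.gate i).fan
  · obtain ⟨j, hj⟩ := C.inpFix_mem c i r hr
    have e : (fun x => C.inpFix c x i r) = fun x => C.valFix c x j := by funext x; exact hj x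
    rw [e]
    exact (C.valFix_depth c j).mono (hD j)
  · have e : (fun x => C.inpFix c x i r) = fun _ => false := by
      funext x
      cases hg : C.gate i with
      | var v => rw [inpFix, hg]
      | const b => rw [inpFix, hg]
      | and a b => rw [inpFix, hg]
      | or a b => rw [inpFix, hg]
      | other m a g =>
        rw [hg] at hr
        have hr' : ¬ r < m := hr
        rw [inpFix, hg]
        simp only
        rw [dif_neg hr']
    rw [e]
    exact .const _ _

theorem testFun_depth (C : Circuit V s) {D : ℕ} (hD : ∀ i, C.binAt i ≤ D) (k e : ℕ)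
    (he : C.relFan k + 1 ≤ 2 ^ e) (x : V → Bool) : MonoDepth (D + e) (C.testFun k x) := by
  have h1 : C.testFun k x = orList (C.test k (fun i => C.val x i) (fun i r => !(C.inp x i r))) :=
    rfl
  rw [h1]
  apply orList_depth e
  · intro f hf
    unfold test at hf
    rw [List.mem_cons, List.mem_map] at hf
    rcases hf with rfl | ⟨w, -, rfl⟩
    · exact (C.valFix_depth _ C.out).mono (hD C.out)
    · exact C.inpFix_depth hD _ w.1 w.2
  · unfold test
    rw [List.length_cons, List.length_map, Finset.length_toList]
    refine le_trans (Nat.add_le_add_right ?_ 1) he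
    refine (Finset.card_filter_le _ _).trans ?_
    rw [Finset.card_sigma, relFan]
    exact le_of_eq (Finset.sum_congr rfl (fun i _ => Finset.card_range _))

end Circuit

/-- from the averaged to the counting form of the hardness of layered graphs -/
theorem depth_hard {w l K : ℕ} [NeZero w] {D : ℕ}
    (hbase : ∀ g : (E w → Bool) → Bool, MonoDepth D g →
      ∑ v : Fin l → Fin w, ind (g (path 0 v)) ≤
        ∑ v : Fin l → Fin w, ind (g (cut 0 v)) + 1 / 2 * (w : ℝ) ^ l)
    {g : (Fin K × Fin (l + 1) × Fin w × Fin w → Bool) → Bool} (hg : MonoDepth D g)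
    (j : Fin K) (u : Fin K → Fin l → Fin w)
    (hpos : ∀ v : Fin l → Fin w, g (hyb j.val true (Function.update u j v)) = true) :
    Fintype.card (Fin l → Fin w) ≤ 2 * (univ.filter (fun v : Fin l → Fin w =>
      g (hyb (j.val + 1) false (Function.update u j v)) = true)).card := by
  have h1 := hybrid_point hbase hg j u
  have h2 : ∑ v : Fin l → Fin w, ind (g (hyb j.val true (Function.update u j v))) =
      (Fintype.card (Fin l → Fin w) : ℝ) := by
    calc _ = ∑ _v : Fin l → Fin w, (1 : ℝ) := by
          refine Finset.sum_congr rfl fun v _ => ?_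
          rw [hpos v]; rfl
      _ = _ := by rw [Finset.sum_const, nsmul_eq_mul, mul_one, Finset.card_univ]
  have h3 : ∑ v : Fin l → Fin w, ind (g (hyb (j.val + 1) false (Function.update u j v))) =
      ((univ.filter (fun v : Fin l → Fin w =>
        g (hyb (j.val + 1) false (Function.update u j v)) = true)).card : ℝ) := by
    rw [Finset.card_filter]
    push_cast
    refine Finset.sum_congr rfl fun v _ => ?_
    cases g (hyb (j.val + 1) false (Function.update u j v)) <;> simp [ind]
  have h4 : (Fintype.card (Fin l → Fin w) : ℝ) = (w : ℝ) ^ l := by simp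
  rw [h2, h3] at h1
  have h5 : (Fintype.card (Fin l → Fin w) : ℝ) ≤ 2 * ((univ.filter (fun v : Fin l → Fin w =>
        g (hyb (j.val + 1) false (Function.update u j v)) = true)).card : ℝ) := by
    linarith
  exact_mod_cast h5

end Pool.Agent.H.MP_8a52c3_lc
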