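import Pool.Agent.H.MP_027d00_lc.gen.Depth

/-!
# Circuits with other gates for the explicit function
-/

set_option autoImplicit false

open Finset

namespace Pool.Agent.H.MP_8a52c3_lc

open Pool.Agent.H.MP_027d00_lc (MonoDepth E ind path cut hyb hyb_mono
  hyb_update hyb_le hyb_true hyb_false_not OrConn base_hard Var family logVars depth_bound10
  logVars_le pow_le_rpow)

open Classical in
/-- The chain theorem, with the hardness assumption only for the tests. -/
theorem chain_bound_gen {V : Type} {s : ℕ} (C : Circuit V s) {K : ℕ} {Q P : Type} [Fintype Q]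
    [Nonempty Q] (Z : ℕ → (Fin K → Q) → V → Bool) (Y : Fin K → (Fin K → Q) → P → V → Bool)
    (hmono : ∀ u, Monotone (fun j => Z j u))
    (hup : ∀ (j : Fin K) u v, Z j.val (Function.update u j v) = Z j.val u)
    (hZY : ∀ (j : Fin K) u a, Z j.val u ≤ Y j u a)
    (hZ0 : ∀ j u, C.eval (Z j u) = false) (hY1 : ∀ j u a, C.eval (Y j u a) = true)
    (hard : ∀ (j : Fin K) u, (∀ a, C.testFun C.otherDepth (Z j.val u) (Y j u a) = true) →
      Fintype.card Q ≤ 2 * (univ.filter (fun v : Q => C.testFun C.otherDepth (Z j.val u)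
        (Z (j.val + 1) (Function.update u j v)) = true)).card) :
    K + 2 ≤ 2 * C.cap C.otherDepth := by
  have h1 : ∀ u : Fin K → Q, (univ.filter (fun j : Fin K =>
      ¬ C.Agree C.otherDepth (Z j.val u) (Z (j.val + 1) u))).card ≤ C.cap C.otherDepth - 1 := by
    intro u
    have h2 := C.changes_lt C.otherDepth K (fun t => Z t u) (hmono u)
    have h3 : (univ.filter (fun j : Fin K =>
        ¬ C.Agree C.otherDepth (Z j.val u) (Z (j.val + 1) u))).card ≤
        ((range K).filter (fun t => ¬ C.Agree C.otherDepth (Z t u) (Z (t + 1) u))).card := by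
      refine Finset.card_le_card_of_injOn (fun j => j.val) ?_ ?_
      · intro j hj
        have := (Finset.mem_filter.1 (Finset.mem_coe.1 hj)).2
        exact Finset.mem_coe.2 (Finset.mem_filter.2 ⟨Finset.mem_range.2 j.isLt, this⟩)
      · intro j _ j' _ h
        exact Fin.ext h
    omega
  have h2 := chain_count (fun (j : Fin K) (u : Fin K → Q) =>
    ¬ C.Agree C.otherDepth (Z j.val u) (Z (j.val + 1) u)) (C.cap C.otherDepth - 1) ?_ h1
  · have h3 := C.pot_lt_cap (Z 0 (fun _ => Classical.arbitrary Q)) C.otherDepth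
    omega
  · intro j u
    refine (hard j u (fun a =>
      C.testFun_true C.otherDepth le_rfl (hZY j u a) (hY1 j u a))).trans ?_
    apply Nat.mul_le_mul_left
    apply Finset.card_le_card
    intro v hv
    rw [Finset.mem_filter] at hv ⊢
    refine ⟨Finset.mem_univ _, ?_⟩
    rw [hup]
    exact C.not_agree_of_test C.otherDepth le_rfl (hZ0 _ _) hv.2

/-- from `cap` to the two bounds -/
theorem from_cap {V : Type} {s : ℕ} (C : Circuit V s) {K : ℕ}
    (h : C.relFan C.otherDepth < K → K + 2 ≤ 2 * C.cap C.otherDepth) :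
    (K : ℝ) / 2 + 1 ≤ 2 ^ C.otherFan ∧
      (K : ℝ) / 2 + 1 ≤ (1 + (C.otherFan : ℝ) / C.otherDepth) ^ C.otherDepth ∨ K ≤ 1 := by
  by_cases hK : K ≤ 1
  · exact Or.inr hK
  left
  by_cases hsmall : C.relFan C.otherDepth < K
  · have hmain := h hsmall
    refine ⟨?_, bound_real C hmain⟩
    have h3 := cap_le_two_pow C C.otherDepth
    have h4 : K + 2 ≤ 2 * 2 ^ C.otherFan := by omega
    have h5 : (K : ℝ) + 2 ≤ 2 * 2 ^ C.otherFan := by exact_mod_cast h4
    linarith
  · push Not at hsmall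
    have hk : 0 < C.otherDepth := by
      by_contra hcon
      have hk0 : C.otherDepth = 0 := by omega
      rw [hk0, C.relFan_zero] at hsmall
      omega
    have h1 := C.relFan_le C.otherDepth
    have h2 : (K : ℝ) ≤ C.otherFan := by exact_mod_cast (by omega : K ≤ C.otherFan)
    have hK2 : (2 : ℝ) ≤ K := by exact_mod_cast (by omega : 2 ≤ K)
    have hkR : (0 : ℝ) < C.otherDepth := by exact_mod_cast hk
    have h4 := one_add_mul_le_pow (a := (C.otherFan : ℝ) / C.otherDepth)
      (by have : (0 : ℝ) ≤ (C.otherFan : ℝ) / C.otherDepth := by positivity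
          linarith) C.otherDepth
    have h5 : (C.otherDepth : ℝ) * ((C.otherFan : ℝ) / C.otherDepth) = C.otherFan := by
      field_simp
    rw [h5] at h4
    have h7 : (C.otherFan : ℝ) < 2 ^ C.otherFan := by
      exact_mod_cast (Nat.lt_two_pow_self : C.otherFan < 2 ^ C.otherFan)
    constructor
    · linarith
    · linarith

/-- monotonicity of `(1 + I / k) ^ k` in `I` -/
theorem pow_mono_fan {I I' : ℕ} (h : I ≤ I') (k : ℕ) :
    (1 + (I : ℝ) / k) ^ k ≤ (1 + (I' : ℝ) / k) ^ k := by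
  apply pow_le_pow_left₀ (by positivity)
  have h1 : (I : ℝ) ≤ I' := by exact_mod_cast h
  have := div_le_div_of_nonneg_right h1 (Nat.cast_nonneg k : (0 : ℝ) ≤ k)
  linarith

/-- The bounds for the explicit function. -/
theorem family_other {m t : ℕ} (hm : 2 ≤ m) (ht : 1000 ≤ t) {s : ℕ} (C : Circuit (Var m t) s)
    (hC : ∀ x, C.eval x = true ↔ family m t x)
    (hD : (C.binDepth : ℝ) ≤ logVars m t ^ ((2 * m : ℝ) / (m + 1)) / 2) :
    ((2 ^ (t ^ (m + 1)) : ℕ) : ℝ) / 2 + 1 ≤ 2 ^ C.otherFan ∧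
      ((2 ^ (t ^ (m + 1)) : ℕ) : ℝ) / 2 + 1 ≤
        (1 + (C.otherFan : ℝ) / C.otherDepth) ^ C.otherDepth := by
  classical
  set K : ℕ := 2 ^ (t ^ (m + 1)) with hK
  have hb := depth_bound10 hm ht hD
  have hq : 2 ≤ t ^ m := by
    calc 2 ≤ t := by omega
      _ = t ^ 1 := (pow_one t).symm
      _ ≤ t ^ m := Nat.pow_le_pow_right (by omega) (by omega)
  have htm : 1 ≤ t ^ (m + 1) := Nat.one_le_pow _ _ (by omega)
  have hK2 : 2 ≤ K := by
    calc 2 = 2 ^ 1 := by norm_num
      _ ≤ K := Nat.pow_le_pow_right (by norm_num) htm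
  set C' := C.prune C.binDepth with hC'
  have heval : ∀ x, C'.eval x = C.eval x := fun x => C.prune_eval le_rfl x
  have hdepth : C'.otherDepth = C.otherDepth := C.prune_otherDepth le_rfl
  have hfan : C'.otherFan ≤ C.otherFan := C.prune_otherFan _
  have hbin : ∀ i, C'.binAt i ≤ C.binDepth := fun i => C.prune_binAt_le _ i
  have hbase : ∀ g : (E (16 ^ (t ^ m)) → Bool) → Bool,
      MonoDepth (C.binDepth + t ^ (m + 1)) g →
      ∑ v : Fin (2 ^ (t ^ m)) → Fin (16 ^ (t ^ m)), ind (g (path 0 v)) ≤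
        ∑ v : Fin (2 ^ (t ^ m)) → Fin (16 ^ (t ^ m)), ind (g (cut 0 v)) +
          1 / 2 * ((16 ^ (t ^ m) : ℕ) : ℝ) ^ (2 ^ (t ^ m)) := by
    intro g hg
    have := base_hard hq rfl (t ^ m) 1 (by omega) (by omega) 0 hg
    rw [pow_one] at this
    exact this
  have hcap : C'.relFan C'.otherDepth < K → K + 2 ≤ 2 * C'.cap C'.otherDepth := by
    intro hrel
    refine chain_bound_gen C' (K := K) (Q := Fin (2 ^ (t ^ m)) → Fin (16 ^ (t ^ m)))
      (P := Fin (2 ^ (t ^ m)) → Fin (16 ^ (t ^ m)))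
      (fun j u => hyb j false u) (fun j u a => hyb j.val true (Function.update u j a))
      (fun u => hyb_mono u) (fun j u v => hyb_update j u v) ?_ ?_ ?_ ?_
    · intro j u a
      have h1 := hyb_le j.val (Function.update u j a)
      rw [hyb_update] at h1
      exact h1
    · intro j u
      rw [heval]
      cases hv : C.eval (hyb j false u) with
      | false => rfl
      | true => exact absurd ((hC _).1 hv) (hyb_false_not _ _)
    · intro j u a
      rw [heval]
      exact (hC _).2 (hyb_true j _)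
    · intro j u hpos
      exact depth_hard hbase (C'.testFun_depth hbin C'.otherDepth (t ^ (m + 1)) hrel _) j u hpos
  rcases from_cap C' hcap with ⟨h1, h2⟩ | h1
  · rw [hdepth] at h2
    refine ⟨h1.trans ?_, h2.trans (pow_mono_fan hfan _)⟩
    exact pow_le_pow_right₀ (by norm_num) hfan
  · omega

/-- logarithmic form -/
theorem family_log {m t : ℕ} (hm : 2 ≤ m) (ht : 1000 ≤ t) {B : ℝ}
    (h : ((2 ^ (t ^ (m + 1)) : ℕ) : ℝ) / 2 + 1 ≤ B) :
    logVars m t - 10 * logVars m t ^ ((m : ℝ) / (m + 1)) ≤ Real.logb 2 B := by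
  have h5 := logVars_le m t
  have h6 := pow_le_rpow m t
  have h7 : (2 : ℝ) ≤ (t : ℝ) ^ m := by
    have htR : (1000 : ℝ) ≤ t := by exact_mod_cast ht
    calc (2 : ℝ) ≤ (t : ℝ) ^ 1 := by linarith
      _ ≤ (t : ℝ) ^ m := pow_le_pow_right₀ (by linarith) (by omega)
  have h8 : (2 : ℝ) ^ ((t : ℝ) ^ (m + 1) - 1) ≤ B := by
    refine le_trans ?_ h
    rw [Real.rpow_sub (by norm_num), Real.rpow_one]
    have : (2 : ℝ) ^ ((t : ℝ) ^ (m + 1)) = ((2 ^ (t ^ (m + 1)) : ℕ) : ℝ) := by
      have e : ((t : ℝ) ^ (m + 1)) = ((t ^ (m + 1) : ℕ) : ℝ) := by push_cast; ring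
      rw [e, Real.rpow_natCast, Nat.cast_pow]
      norm_num
    rw [this]
    linarith
  have h9 := Real.logb_le_logb_of_le (b := 2) (by norm_num) (by positivity) h8
  rw [Real.logb_rpow (by norm_num) (by norm_num)] at h9
  linarith

end Pool.Agent.H.MP_8a52c3_lc
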