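import Pool.Agent.H.MP_027d00_lc.gen.Family

/-!
# The number of other gates, for the explicit function
-/

set_option autoImplicit false

open Finset

namespace Pool.Agent.H.MP_8a52c3_lc

open Pool.Agent.H.MP_027d00_lc (MonoDepth Var family logVars logVars_le pow_le_rpow
  family_features)

theorem feat_depth {V : Type} {s : ℕ} (C : Circuit V s) {D : ℕ} (hD : ∀ i, C.binAt i ≤ D)
    (r : Finset (Fin s) × Option (Σ _ : Fin s, ℕ)) : MonoDepth D (C.feat r) := by
  rcases r with ⟨S, w⟩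
  cases w with
  | none => exact (C.valFix_depth _ C.out).mono (hD C.out)
  | some w => exact C.inpFix_depth hD _ w.1 w.2

theorem family_others {m t : ℕ} (hm : 2 ≤ m) (ht : 1000 ≤ t) {s : ℕ} (C : Circuit (Var m t) s)
    (hC : ∀ x, C.eval x = true ↔ family m t x)
    (hD : (C.binDepth : ℝ) ≤ logVars m t ^ ((2 * m : ℝ) / (m + 1)) / 2) :
    logVars m t - 10 * logVars m t ^ ((m : ℝ) / (m + 1)) ≤
      (C.numOther : ℝ) + Real.logb 2 ((C.otherFan : ℝ) + 1) := by
  set C' := C.prune C.binDepth with hC'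
  have heval : ∀ x, C'.eval x = C.eval x := fun x => C.prune_eval le_rfl x
  have hfan : C'.otherFan ≤ C.otherFan := C.prune_otherFan _
  have hnum : C'.numOther ≤ C.numOther := C.prune_numOther _
  have hbin : ∀ i, C'.binAt i ≤ C.binDepth := fun i => C.prune_binAt_le _ i
  have h1 := family_features hm ht hD (C'.featSet.toList.map C'.feat)
    (fun f hf => by
      rw [List.mem_map] at hf
      obtain ⟨r, -, rfl⟩ := hf
      exact feat_depth C' hbin r)
    (fun x y hxy => by
      rw [← hC, ← hC, ← heval x, ← heval y]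
      rw [C'.feat_det x y (fun r hr => hxy (C'.feat r)
        (List.mem_map.2 ⟨r, Finset.mem_toList.2 hr, rfl⟩))])
  rw [List.length_map, Finset.length_toList, C'.card_featSet] at h1
  have h2 : 2 ^ C'.numOther * (C'.otherFan + 1) ≤ 2 ^ C.numOther * (C.otherFan + 1) :=
    Nat.mul_le_mul (Nat.pow_le_pow_right (by norm_num) hnum) (by omega)
  have h3 : 2 ^ (t ^ (m + 1)) ≤ 2 * (2 ^ C.numOther * (C.otherFan + 1)) := by omega
  have h4 : ((2 ^ (t ^ (m + 1)) : ℕ) : ℝ) ≤
      2 * (2 ^ C.numOther * ((C.otherFan : ℝ) + 1)) := by exact_mod_cast h3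
  have h5 := logVars_le m t
  have h6 := pow_le_rpow m t
  have h7 : (2 : ℝ) ≤ (t : ℝ) ^ m := by
    have htR : (1000 : ℝ) ≤ t := by exact_mod_cast ht
    calc (2 : ℝ) ≤ (t : ℝ) ^ 1 := by linarith
      _ ≤ (t : ℝ) ^ m := pow_le_pow_right₀ (by linarith) (by omega)
  have h8 : (2 : ℝ) ^ ((t : ℝ) ^ (m + 1) - 1) ≤ 2 ^ C.numOther * ((C.otherFan : ℝ) + 1) := by
    rw [Real.rpow_sub (by norm_num), Real.rpow_one]
    have : (2 : ℝ) ^ ((t : ℝ) ^ (m + 1)) = ((2 ^ (t ^ (m + 1)) : ℕ) : ℝ) := by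
      have e : ((t : ℝ) ^ (m + 1)) = ((t ^ (m + 1) : ℕ) : ℝ) := by push_cast; ring
      rw [e, Real.rpow_natCast, Nat.cast_pow]
      norm_num
    rw [this]
    linarith
  have h9 := Real.logb_le_logb_of_le (b := 2) (by norm_num) (by positivity) h8
  have h10 : (0 : ℝ) < (C.otherFan : ℝ) + 1 := by positivity
  rw [Real.logb_rpow (by norm_num) (by norm_num), Real.logb_mul (by positivity) h10.ne',
    Real.logb_pow, Real.logb_self_eq_one (by norm_num), mul_one] at h9
  linarith

end Pool.Agent.H.MP_8a52c3_lc
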